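import Pool.Agent.Q222.PS.Weak
import Pool.Agent.Q222.PS.Word

namespace Pool.Agent.Results.MP_300f36_lc.TightBounds

open Q222.PS

/-- The two space modes of the question. -/
inductive Mode
  | strong
  | middle

/-- `s` is a space bound of `M` in the given mode. -/
def SpaceBound {A Q Γ : Type} (md : Mode) (M : PDA A Q Γ) (s : ℕ → ℕ) : Prop :=
  match md with
  | .strong => M.Strong s
  | .middle => M.Middle s

/-- The class of machines: realtime if `rt = true` (one-way otherwise), alternating if
`alt = true`, nondeterministic (no universal states) otherwise. -/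
def InClass {A Q Γ : Type} (rt alt : Bool) (M : PDA A Q Γ) : Prop :=
  (rt = true → M.Realtime) ∧ (alt = false → M.univ = ∅)

/-- `f` is the tight bound for nonregular recognition: some nonregular language is recognised in
space `O(f(n))` by a machine of the class, and none is recognised in space `o(f(n))`. -/
def TightBound (rt alt : Bool) (md : Mode) (f : ℕ → ℕ) : Prop :=
  (∃ (A Q Γ : Type) (_ : Finite A) (_ : Finite Q) (_ : Finite Γ) (M : PDA A Q Γ) (s : ℕ → ℕ),
    InClass rt alt M ∧ ¬ M.lang.IsRegular ∧ SpaceBound md M s ∧ BigO s f) ∧
  (∀ (A Q Γ : Type) [Finite A] [Finite Q] [Finite Γ] (M : PDA A Q Γ) (s : ℕ → ℕ),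
    InClass rt alt M → SpaceBound md M s → LittleO s f → M.lang.IsRegular)

/-- **Main theorem.** The tight bound for nonregular recognition by pushdown automata is `n` in the
strong mode for all four classes (one-way or realtime, nondeterministic or alternating), `n` in the
middle mode for one-way and realtime nondeterministic machines, and `log log n` in the middle mode
for one-way and realtime alternating machines. -/
theorem result :
    (∀ rt alt : Bool, TightBound rt alt .strong id) ∧
    (∀ rt : Bool, TightBound rt false .middle id) ∧
    (∀ rt : Bool, TightBound rt true .middle (fun n => Nat.log 2 (Nat.log 2 n))) := by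
  refine ⟨fun rt alt => ⟨?_, ?_⟩, fun rt => ⟨?_, ?_⟩, fun rt => ⟨?_, ?_⟩⟩
  · exact ⟨Bool, S3, Unit, inferInstance, inferInstance, inferInstance, M3, id,
      ⟨fun _ => M3_realtime, fun _ => rfl⟩, M3_nonregular, M3_strong,
      1, Filter.Eventually.of_forall fun n => by simp⟩
  · intro A Q Γ _ _ _ M s _ hs ho
    exact strong_regular M s hs ho
  · exact ⟨Bool, S3, Unit, inferInstance, inferInstance, inferInstance, M3, id,
      ⟨fun _ => M3_realtime, fun _ => rfl⟩, M3_nonregular, M3_strong.middle,
      1, Filter.Eventually.of_forall fun n => by simp⟩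
  · intro A Q Γ _ _ _ M s hM hs ho
    exact middle_regular M (hM.2 rfl) s hs ho
  · exact ⟨Let, St, Bool, inferInstance, inferInstance, inferInstance, LL,
      fun n => Nat.log 2 (Nat.log 2 n), ⟨fun _ => umach_realtime, fun h => by simp at h⟩,
      LL_nonregular, LL_middle, 1, Filter.Eventually.of_forall fun n => by simp⟩
  · intro A Q Γ _ _ _ M s _ hs ho
    haveI := Fintype.ofFinite Q
    haveI := Fintype.ofFinite Γ
    exact weak_regular M s (PDA.Middle.weak hs) ho

end Pool.Agent.Results.MP_300f36_lc.TightBounds
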